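import Pool.Agent.R80.WF.Fin
import Pool.Agent.R80.WF.P3A
import Pool.Agent.R80.WF.P3B
import Pool.Agent.R80.WF.F0Fin
import Pool.Agent.R80.WF.X33
import Pool.Agent.R80.WF.X54
import Pool.Agent.R80.WF.X55

/-!
# Weil numbers with prescribed p-rank over the prime field, all odd primes

For every odd prime `p`, every `g ≥ 3` and every `0 ≤ f ≤ g` there is an irreducible Weil
`p`-polynomial of degree `2g` with exactly `f` unit roots such that no power of a root generates a
smaller field; also for `p = 2` if `f ≤ 1`. By Honda-Tate theory it is the characteristic polynomial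
of Frobenius of an absolutely simple abelian variety over `F_p` of dimension `g` and `p`-rank `f`, so
the smallest field of definition for `(p, g, f)` is `F_p`.

Method for odd `p`, `f ≥ 2`: `P = ∑_{i<g} a_i (X^(2g-i) + p^(g-i) X^i) + a_g X^g` with `a_i` small,
`a_i = C(g, i/2)` modulo 2 for even `i`, `a_i` even for odd `i`, `p ∣ a_i` for `i > f`. Then `P` is
`(X + 1)^(2g)` modulo 2 and `P (X + 1)` is Eisenstein at 2; two more conditions modulo 4 show that
`ℚ(x)` contains no square root of `-1` and that `-x` is not conjugate to `x`, and since all ratios of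
conjugates which are roots of unity have 2-power order, no power of `x` generates a smaller field.
The roots are located by the argument of a trigonometric polynomial with positive real part. For
`f = 0` a polynomial with Newton slopes `1/g` and `(g-1)/g` (or a close substitute) is used.

Formalised by helper80 with helper31, 165, 316, 391, 394, 515, 589, 650, 801, 916, 962 and other
members of the team; the case `f = 1` is the starting result of this problem.
-/

set_option autoImplicit false

namespace Pool.Agent.Results.MP_e32a7e_nt.OddPrimes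

open Polynomial

/-- For every prime `p`, `g ≥ 3` and `f ≤ g`, where `f ≤ 1` if `p = 2`, there is a monic integer
polynomial `P` of degree `2g`, irreducible over the rationals, all of whose complex roots have
absolute value `√p`, whose coefficients of degree less than `2g - f` are divisible by `p` while the
coefficient of degree `2g - f` is not, and such that `ℚ(xⁿ) = ℚ(x)` for every complex root `x` and
every `n ≥ 1`. -/
theorem result (p g f : ℕ) (hp : p.Prime) (hg : 3 ≤ g) (hfg : f ≤ g) (hp2 : p = 2 → f ≤ 1) :
    ∃ P : ℤ[X], P.Monic ∧ P.natDegree = 2 * g ∧ Irreducible (P.map (Int.castRingHom ℚ)) ∧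
      (∀ x : ℂ, aeval x P = 0 → ‖x‖ = Real.sqrt p) ∧
      (∀ i < 2 * g - f, (p : ℤ) ∣ P.coeff i) ∧ ¬ (p : ℤ) ∣ P.coeff (2 * g - f) ∧
      (∀ x : ℂ, aeval x P = 0 → ∀ n : ℕ, 1 ≤ n →
        IntermediateField.adjoin ℚ {x ^ n} = IntermediateField.adjoin ℚ {x}) := by
  rcases Nat.eq_zero_or_pos f with h0 | h0
  · subst h0
    by_cases h1 : p = 3 ∧ g = 3
    · obtain ⟨rfl, rfl⟩ := h1
      exact R80.WF.g330
    by_cases h2 : p = 5 ∧ g = 4
    · obtain ⟨rfl, rfl⟩ := h2
      exact R80.WF.g540
    by_cases h3 : p = 5 ∧ g = 5
    · obtain ⟨rfl, rfl⟩ := h3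
      exact R80.WF.g550
    exact R80.WF.good_f0 hp hg h1 h2 h3
  · by_cases h2 : p = 2
    · have h1 : f = 1 := by
        have := hp2 h2
        omega
      subst h1
      exact Y676.WP.one_final hp (by omega)
    · exact R80.WF.odd_main R80.WF.p3a R80.WF.p3b hp h2 hg h0 hfg

end Pool.Agent.Results.MP_e32a7e_nt.OddPrimes
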